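import Pool.Agent.H818R2.Ram.Lower

/-!
# MP_703660_co: the order of a CIS graph is not bounded by a polynomial in `α ω`

For every `c` there is a finite CIS graph `Γ` with `|V(Γ)| > (α(Γ) ω(Γ)) ^ c`.

Construction. Let `G` be a graph with `n` vertices, `α₀`, `ω₀` its independence and clique numbers and
`Q` the number of its maximal cliques, and let `H` be a CIS graph. Substitute `H` for every vertex of `G`
and add, for each maximal clique `K` of `G`, a new vertex which is adjacent to the vertices of the copies of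
`H` which belong to `K` (and to no other vertex). The result is again a CIS graph, with at least `n |H|`
vertices, clique number at most `ω₀ ω(H) + 1` and independence number at most `α₀ α(H) + Q`. We start
with the edgeless graph with `Q` vertices and repeat this `j` times with the same `G`: the result has at least
`n ^ j` vertices and `α ω ≤ Q ((α₀ + 1) (ω₀ + 1)) ^ j`. By Erdős' lower bound for Ramsey numbers
there is a graph `G` with `n ≥ 2 ((α₀ + 1) (ω₀ + 1)) ^ c`, and it remains to let `j` be large.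
-/

set_option autoImplicit false

namespace Pool.Agent.Results.MP_703660_co.NoPolynomialBound

open SimpleGraph

/-- `K` is a maximal clique of `G`. -/
def IsMaxClique {V : Type} (G : SimpleGraph V) (K : Set V) : Prop :=
  G.IsClique K ∧ ∀ K' : Set V, G.IsClique K' → K ⊆ K' → K' = K

/-- `S` is a maximal stable set of `G`. -/
def IsMaxStable {V : Type} (G : SimpleGraph V) (S : Set V) : Prop :=
  G.IsIndepSet S ∧ ∀ S' : Set V, G.IsIndepSet S' → S ⊆ S' → S' = S

/-- `G` is a CIS graph: every maximal clique and every maximal stable set have a common vertex. -/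
def IsCIS {V : Type} (G : SimpleGraph V) : Prop :=
  ∀ K S : Set V, IsMaxClique G K → IsMaxStable G S → (K ∩ S).Nonempty

/-- a vertex adjacent to all vertices of a maximal clique belongs to it -/
lemma mem_of_maxClique {V : Type} {H : SimpleGraph V} {K : Set V} (hK : IsMaxClique H K) {x : V}
    (hx : ∀ y ∈ K, y ≠ x → H.Adj x y) : x ∈ K := by
  have h1 : H.IsClique (insert x K) := by
    rw [isClique_insert]
    exact ⟨hK.1, fun y hy hne => hx y hy (Ne.symm hne)⟩
  have h2 := hK.2 _ h1 (Set.subset_insert x K)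
  rw [← h2]
  exact Set.mem_insert x K

/-- a vertex adjacent to no vertex of a maximal stable set belongs to it -/
lemma mem_of_maxStable {V : Type} {H : SimpleGraph V} {S : Set V} (hS : IsMaxStable H S) {x : V}
    (hx : ∀ y ∈ S, ¬ H.Adj x y) : x ∈ S := by
  have h1 : H.IsIndepSet (insert x S) := by
    intro a ha b hb hab
    rcases ha with rfl | ha <;> rcases hb with rfl | hb
    · exact absurd rfl hab
    · exact hx b hb
    · exact fun h => hx a ha h.symm
    · exact hS.1 ha hb hab
  have h2 := hS.2 _ h1 (Set.subset_insert x S)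
  rw [← h2]
  exact Set.mem_insert x S

lemma exists_maxClique {V : Type} [Finite V] (G : SimpleGraph V) (K : Set V) (hK : G.IsClique K) :
    ∃ K', K ⊆ K' ∧ IsMaxClique G K' := by
  obtain ⟨K', h1, h2⟩ := Finite.exists_le_maximal (p := fun K : Set V => G.IsClique K) hK
  exact ⟨K', h1, h2.1, fun K'' h3 h4 => Set.Subset.antisymm (h2.2 h3 h4) h4⟩

/-! ### The construction -/

/-- the maximal cliques of `G` -/
abbrev MC {V : Type} (G : SimpleGraph V) : Type := {K : Set V // IsMaxClique G K}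

/-- substitute `H` for every vertex of `G` and add a vertex for every maximal clique of `G`, adjacent to
the copies of `H` in this clique -/
def ext {V U : Type} (G : SimpleGraph V) (H : SimpleGraph U) : SimpleGraph ((V × U) ⊕ MC G) where
  Adj x y := match x, y with
    | Sum.inl a, Sum.inl b => G.Adj a.1 b.1 ∨ (a.1 = b.1 ∧ H.Adj a.2 b.2)
    | Sum.inl a, Sum.inr K => a.1 ∈ K.1
    | Sum.inr K, Sum.inl a => a.1 ∈ K.1
    | Sum.inr _, Sum.inr _ => False
  symm := ⟨by
    rintro (a | K) (b | L) h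
    · rcases h with h | h
      · exact Or.inl h.symm
      · exact Or.inr ⟨h.1.symm, h.2.symm⟩
    · exact h
    · exact h
    · exact h⟩
  loopless := ⟨by
    rintro (a | K) h
    · rcases h with h | h
      · exact G.loopless.irrefl _ h
      · exact H.loopless.irrefl _ h.2
    · exact h⟩

section
variable {V U : Type} {G : SimpleGraph V} {H : SimpleGraph U}

lemma adj_ll {a b : V × U} : (ext G H).Adj (Sum.inl a) (Sum.inl b) ↔
    G.Adj a.1 b.1 ∨ (a.1 = b.1 ∧ H.Adj a.2 b.2) := Iff.rfl

lemma adj_lr {a : V × U} {K : MC G} : (ext G H).Adj (Sum.inl a) (Sum.inr K) ↔ a.1 ∈ K.1 := Iff.rfl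

lemma adj_rl {a : V × U} {K : MC G} : (ext G H).Adj (Sum.inr K) (Sum.inl a) ↔ a.1 ∈ K.1 := Iff.rfl

lemma adj_rr {K L : MC G} : ¬ (ext G H).Adj (Sum.inr K) (Sum.inr L) := fun h => h

lemma ext_isCIS [Finite V] (hH : IsCIS H) : IsCIS (ext G H) := by
  intro 𝒦 𝒮 h𝒦 h𝒮
  -- the clique contains a vertex `inr K`
  have hK : ∃ K : MC G, Sum.inr K ∈ 𝒦 := by
    by_contra hno
    push Not at hno
    have h1 : G.IsClique {v | ∃ u, (Sum.inl (v, u) : (V × U) ⊕ MC G) ∈ 𝒦} := by
      rintro v ⟨u, hu⟩ w ⟨u', hu'⟩ hvw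
      have h2 := h𝒦.1 hu hu' (by
        intro he
        exact hvw (congrArg Prod.fst (Sum.inl.inj he)))
      rcases adj_ll.1 h2 with h3 | h3
      · exact h3
      · exact absurd h3.1 hvw
    obtain ⟨K, hK1, hK2⟩ := exists_maxClique G _ h1
    refine hno ⟨K, hK2⟩ (mem_of_maxClique h𝒦 ?_)
    rintro (⟨v, u⟩ | L) hy _
    · exact adj_rl.2 (hK1 ⟨u, hy⟩)
    · exact absurd hy (hno L)
  obtain ⟨K, hK⟩ := hK
  have hsub : ∀ v u, (Sum.inl (v, u) : (V × U) ⊕ MC G) ∈ 𝒦 → v ∈ K.1 := by
    intro v u h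
    exact adj_lr.1 (h𝒦.1 h hK (by simp))
  by_cases hS : (Sum.inr K : (V × U) ⊕ MC G) ∈ 𝒮
  · exact ⟨_, hK, hS⟩
  -- the stable set contains a neighbour of `inr K`
  have hS' : ∃ v ∈ K.1, ∃ u, (Sum.inl (v, u) : (V × U) ⊕ MC G) ∈ 𝒮 := by
    by_contra hno
    push Not at hno
    refine hS (mem_of_maxStable h𝒮 ?_)
    rintro (⟨v, u⟩ | L) hy h
    · exact hno v (adj_rl.1 h) u hy
    · exact adj_rr h
  obtain ⟨v, hvK, u0, hu0⟩ := hS'
  -- the traces on the copy of `H`
  have hC : IsMaxClique H {u | (Sum.inl (v, u) : (V × U) ⊕ MC G) ∈ 𝒦} := by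
    constructor
    · intro u hu u' hu' hne
      have h2 := h𝒦.1 hu hu' (by
        intro he
        exact hne (congrArg Prod.snd (Sum.inl.inj he)))
      rcases adj_ll.1 h2 with h3 | h3
      · exact absurd h3 (G.loopless.irrefl _)
      · exact h3.2
    · intro C' hC' hsubC
      refine Set.Subset.antisymm ?_ hsubC
      intro u hu
      refine mem_of_maxClique h𝒦 ?_
      rintro (⟨w, u'⟩ | L) hy hne
      · by_cases hvw : v = w
        · subst hvw
          exact adj_ll.2 (Or.inr ⟨rfl, hC' hu (hsubC hy) (fun he => hne (by rw [he]))⟩)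
        · exact adj_ll.2 (Or.inl (K.2.1 hvK (hsub w u' hy) hvw))
      · have hL : L = K := by
          by_contra hLK
          exact adj_rr (h𝒦.1 hy hK (fun he => hLK (Sum.inr.inj he)))
        subst hL
        exact adj_lr.2 hvK
  have hT : IsMaxStable H {u | (Sum.inl (v, u) : (V × U) ⊕ MC G) ∈ 𝒮} := by
    constructor
    · intro u hu u' hu' hne h3
      exact h𝒮.1 hu hu' (by
        intro he
        exact hne (congrArg Prod.snd (Sum.inl.inj he))) (adj_ll.2 (Or.inr ⟨rfl, h3⟩))
    · intro C' hC' hsubC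
      refine Set.Subset.antisymm ?_ hsubC
      intro u hu
      refine mem_of_maxStable h𝒮 ?_
      rintro (⟨w, u'⟩ | L) hy h
      · rcases adj_ll.1 h with h3 | h3
        · have hne : v ≠ w := fun he => by
            subst he
            exact G.loopless.irrefl _ h3
          exact h𝒮.1 hu0 hy (fun he => hne (congrArg Prod.fst (Sum.inl.inj he)))
            (adj_ll.2 (Or.inl h3))
        · obtain ⟨h4, h5⟩ := h3
          have h4' : v = w := h4
          subst h4'
          exact hC' hu (hsubC hy) h5.ne h5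
      · have h' : v ∈ L.1 := adj_lr.1 h
        exact h𝒮.1 hu0 hy (by simp) (adj_lr.2 h')
  obtain ⟨u, hu1, hu2⟩ := hH _ _ hC hT
  exact ⟨Sum.inl (v, u), hu1, hu2⟩

end

/-! ### Numbers -/

/-- there is a finite CIS graph with independence number at most `a`, clique number at most `w` and at
least `N` vertices -/
def Good (a w N : ℕ) : Prop :=
  ∃ (V : Type) (_ : Fintype V) (G : SimpleGraph V), IsCIS G ∧
    (∀ s : Finset V, G.IsClique (s : Set V) → s.card ≤ w) ∧
    (∀ s : Finset V, G.IsIndepSet (s : Set V) → s.card ≤ a) ∧ N ≤ Fintype.card V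

lemma step {V : Type} [Fintype V] (G : SimpleGraph V) [Fintype (MC G)] {a₀ w₀ : ℕ}
    (hw₀ : ∀ s : Finset V, G.IsClique (s : Set V) → s.card ≤ w₀)
    (ha₀ : ∀ s : Finset V, G.IsIndepSet (s : Set V) → s.card ≤ a₀) {a w N : ℕ} (h : Good a w N) :
    Good (a₀ * a + Fintype.card (MC G)) (w₀ * w + 1) (Fintype.card V * N) := by
  classical
  obtain ⟨U, _, H, h1, h2, h3, h4⟩ := h
  refine ⟨(V × U) ⊕ MC G, inferInstance, ext G H, ext_isCIS h1, ?_, ?_, ?_⟩
  · intro s hs
    have e1 : s.toRight.card ≤ 1 := by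
      rw [Finset.card_le_one]
      intro K hK L hL
      by_contra hne
      exact adj_rr (hs (Finset.mem_coe.2 (Finset.mem_toRight.1 hK))
        (Finset.mem_coe.2 (Finset.mem_toRight.1 hL)) (fun he => hne (Sum.inr.inj he)))
    have e2 : s.toLeft.card ≤ w * (s.toLeft.image Prod.fst).card := by
      refine Finset.card_le_mul_card_image _ _ ?_
      intro v _
      rw [← Finset.card_image_of_injOn (f := Prod.snd) (s := s.toLeft.filter (fun x => x.1 = v))]
      · refine h2 _ ?_
        intro u hu u' hu' hne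
        rw [Finset.mem_coe, Finset.mem_image] at hu hu'
        obtain ⟨⟨x, y⟩, hx, rfl⟩ := hu
        obtain ⟨⟨x', y'⟩, hx', rfl⟩ := hu'
        rw [Finset.mem_filter, Finset.mem_toLeft] at hx hx'
        have e := hs (Finset.mem_coe.2 hx.1) (Finset.mem_coe.2 hx'.1)
          (fun he => hne (congrArg Prod.snd (Sum.inl.inj he)))
        have hxv : x = v := hx.2
        have hxv' : x' = v := hx'.2
        subst hxv
        subst hxv'
        rcases adj_ll.1 e with e | e
        · exact absurd e (G.loopless.irrefl _)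
        · exact e.2
      · rintro ⟨x, y⟩ hx ⟨x', y'⟩ hx' he
        rw [Finset.mem_coe, Finset.mem_filter] at hx hx'
        have hxv : x = v := hx.2
        have hxv' : x' = v := hx'.2
        have he' : y = y' := he
        rw [hxv, hxv', he']
    have e3 : (s.toLeft.image Prod.fst).card ≤ w₀ := by
      refine hw₀ _ ?_
      intro v hv v' hv' hne
      rw [Finset.mem_coe, Finset.mem_image] at hv hv'
      obtain ⟨⟨x, y⟩, hx, rfl⟩ := hv
      obtain ⟨⟨x', y'⟩, hx', rfl⟩ := hv'
      rw [Finset.mem_toLeft] at hx hx'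
      have e := hs (Finset.mem_coe.2 hx) (Finset.mem_coe.2 hx')
        (fun he => hne (congrArg Prod.fst (Sum.inl.inj he)))
      rcases adj_ll.1 e with e | e
      · exact e
      · exact absurd e.1 hne
    have e4 := Finset.card_toLeft_add_card_toRight (u := s)
    have e5 : w * (s.toLeft.image Prod.fst).card ≤ w₀ * w := by
      rw [mul_comm]
      exact Nat.mul_le_mul_right _ e3
    omega
  · intro s hs
    have e1 : s.toRight.card ≤ Fintype.card (MC G) := Finset.card_le_univ _
    have e2 : s.toLeft.card ≤ a * (s.toLeft.image Prod.fst).card := by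
      refine Finset.card_le_mul_card_image _ _ ?_
      intro v _
      rw [← Finset.card_image_of_injOn (f := Prod.snd) (s := s.toLeft.filter (fun x => x.1 = v))]
      · refine h3 _ ?_
        intro u hu u' hu' hne hadj
        rw [Finset.mem_coe, Finset.mem_image] at hu hu'
        obtain ⟨⟨x, y⟩, hx, rfl⟩ := hu
        obtain ⟨⟨x', y'⟩, hx', rfl⟩ := hu'
        rw [Finset.mem_filter, Finset.mem_toLeft] at hx hx'
        have hxv : x = v := hx.2
        have hxv' : x' = v := hx'.2
        exact hs (Finset.mem_coe.2 hx.1) (Finset.mem_coe.2 hx'.1)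
          (fun he => hne (congrArg Prod.snd (Sum.inl.inj he)))
          (adj_ll.2 (Or.inr ⟨hxv.trans hxv'.symm, hadj⟩))
      · rintro ⟨x, y⟩ hx ⟨x', y'⟩ hx' he
        rw [Finset.mem_coe, Finset.mem_filter] at hx hx'
        have hxv : x = v := hx.2
        have hxv' : x' = v := hx'.2
        have he' : y = y' := he
        rw [hxv, hxv', he']
    have e3 : (s.toLeft.image Prod.fst).card ≤ a₀ := by
      refine ha₀ _ ?_
      intro v hv v' hv' hne hadj
      rw [Finset.mem_coe, Finset.mem_image] at hv hv'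
      obtain ⟨⟨x, y⟩, hx, rfl⟩ := hv
      obtain ⟨⟨x', y'⟩, hx', rfl⟩ := hv'
      rw [Finset.mem_toLeft] at hx hx'
      exact hs (Finset.mem_coe.2 hx) (Finset.mem_coe.2 hx')
        (fun he => hne (congrArg Prod.fst (Sum.inl.inj he))) (adj_ll.2 (Or.inl hadj))
    have e4 := Finset.card_toLeft_add_card_toRight (u := s)
    have e5 : a * (s.toLeft.image Prod.fst).card ≤ a₀ * a := by
      rw [mul_comm]
      exact Nat.mul_le_mul_right _ e3
    omega
  · rw [Fintype.card_sum, Fintype.card_prod]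
    have := Nat.mul_le_mul_left (Fintype.card V) h4
    omega

/-- the edgeless graphs are CIS graphs -/
lemma start (q : ℕ) (hq : 1 ≤ q) : Good q 1 q := by
  refine ⟨Fin q, inferInstance, ⊥, ?_, ?_, ?_, by simp⟩
  · intro K S hK hS
    have hu : ∀ x, x ∈ S := fun x => mem_of_maxStable hS (fun y _ h => h)
    have hne : K.Nonempty := by
      by_contra hemp
      rw [Set.not_nonempty_iff_eq_empty] at hemp
      have : (⟨0, hq⟩ : Fin q) ∈ K := mem_of_maxClique hK (fun y hy => by
        rw [hemp] at hy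
        exact absurd hy (Set.notMem_empty _))
      rw [hemp] at this
      exact this
    obtain ⟨x, hx⟩ := hne
    exact ⟨x, hx, hu x⟩
  · intro s hs
    rw [Finset.card_le_one]
    intro x hx y hy
    by_contra hne
    exact hs hx hy hne
  · intro s _
    exact (Finset.card_le_univ s).trans (by simp)

lemma iterate {V : Type} [Fintype V] (G : SimpleGraph V) [Fintype (MC G)] {a₀ w₀ q : ℕ}
    (hw₀ : ∀ s : Finset V, G.IsClique (s : Set V) → s.card ≤ w₀)
    (ha₀ : ∀ s : Finset V, G.IsIndepSet (s : Set V) → s.card ≤ a₀) (hq : 1 ≤ q)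
    (hQ : Fintype.card (MC G) ≤ q) (j : ℕ) :
    Good (q * (a₀ + 1) ^ j) ((w₀ + 1) ^ j) (Fintype.card V ^ j * q) := by
  induction j with
  | zero => simpa using start q hq
  | succ j ih =>
    obtain ⟨U, i, H, h1, h2, h3, h4⟩ := step G hw₀ ha₀ ih
    refine ⟨U, i, H, h1, fun s hs => (h2 s hs).trans ?_, fun s hs => (h3 s hs).trans ?_, ?_⟩
    · have : 1 ≤ (w₀ + 1) ^ j := Nat.one_le_pow _ _ (by omega)
      rw [pow_succ]
      nlinarith
    · have h5 : 1 ≤ (a₀ + 1) ^ j := Nat.one_le_pow _ _ (by omega)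
      have h6 : q ≤ q * (a₀ + 1) ^ j := Nat.le_mul_of_pos_right q h5
      rw [pow_succ]
      nlinarith
    · refine le_trans (le_of_eq ?_) h4
      rw [pow_succ]
      ring

/-- Erdős: graphs with `2 ^ i` vertices without cliques of `8 i + 1` and stable sets of `2 i + 1`
vertices -/
lemma ramsey (i : ℕ) (hi : 1 ≤ i) : ∃ G : SimpleGraph (Fin (2 ^ i)),
    (∀ s : Finset (Fin (2 ^ i)), G.IsClique (s : Set (Fin (2 ^ i))) → s.card ≤ 8 * i) ∧
    (∀ s : Finset (Fin (2 ^ i)), G.IsIndepSet (s : Set (Fin (2 ^ i))) → s.card ≤ 2 * i) := by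
  have h := Pool.Agent.H818R2.Ram.lower_m (k := 8 * i + 1) (l := 2 * i + 1) (m := 2) (by omega)
    (by omega) le_rfl (by omega)
  have h1 : 2 ^ i < Pool.Agent.H818R2.Ram.R (8 * i + 1) (2 * i + 1) := by
    have e : 2 * i + 1 - 1 = i * 2 := by omega
    rw [e, pow_mul] at h
    exact lt_of_pow_lt_pow_left₀ 2 (Nat.zero_le _) h
  obtain ⟨G, h2, h3⟩ := Pool.Agent.H818R2.Ram.exists_coloring h1
  refine ⟨G, fun s hs => ?_, fun s hs => ?_⟩
  · by_contra hlt
    push Not at hlt
    obtain ⟨t, ht, hc⟩ := Finset.exists_subset_card_eq (show 8 * i + 1 ≤ s.card by omega)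
    exact h2 ⟨t, Finset.subset_univ _, hs.subset (Finset.coe_subset.2 ht), hc⟩
  · by_contra hlt
    push Not at hlt
    obtain ⟨t, ht, hc⟩ := Finset.exists_subset_card_eq (show 2 * i + 1 ≤ s.card by omega)
    refine h3 ⟨t, Finset.subset_univ _, ?_, hc⟩
    intro x hx y hy hxy
    exact ⟨hxy, hs (Finset.coe_subset.2 ht hx) (Finset.coe_subset.2 ht hy) hxy⟩

lemma large (c : ℕ) : ∃ i : ℕ, 1 ≤ i ∧ 2 * ((2 * i + 1) * (8 * i + 1)) ^ c ≤ 2 ^ i := by
  have h := tendsto_pow_const_div_const_pow_of_one_lt (2 * c) (show (1 : ℝ) < 2 by norm_num)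
  have hev : ∀ᶠ n : ℕ in Filter.atTop, (n : ℝ) ^ (2 * c) / 2 ^ n < 1 / (2 * 9 ^ (2 * c)) :=
    h.eventually_lt_const (by positivity)
  obtain ⟨i, hi, hi1⟩ := (hev.and (Filter.eventually_ge_atTop 1)).exists
  refine ⟨i, hi1, ?_⟩
  have hpos : (0 : ℝ) < 2 ^ i := by positivity
  rw [div_lt_div_iff₀ hpos (by positivity)] at hi
  have h2 : ((2 * i + 1) * (8 * i + 1)) ^ c ≤ 9 ^ (2 * c) * i ^ (2 * c) := by
    rw [← mul_pow, pow_mul]
    apply Nat.pow_le_pow_left
    nlinarith
  have h3 : 2 * (9 ^ (2 * c) * i ^ (2 * c)) ≤ 2 ^ i := by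
    have h4 : (2 : ℝ) * (9 ^ (2 * c) * (i : ℝ) ^ (2 * c)) ≤ 2 ^ i := by
      nlinarith
    exact_mod_cast h4
  omega

/-- **The order of a CIS graph is not bounded by a polynomial in the product of its independence and
clique numbers**: for every `c` there is a finite CIS graph with more than `(α ω) ^ c` vertices. -/
theorem result (c : ℕ) : ∃ (V : Type) (_ : Fintype V) (G : SimpleGraph V),
    IsCIS G ∧ (G.indepNum * G.cliqueNum) ^ c < Fintype.card V := by
  classical
  obtain ⟨i, hi, hlarge⟩ := large c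
  obtain ⟨G, hw, ha⟩ := ramsey i hi
  have : Fintype (MC G) := Fintype.ofFinite _
  set q := Fintype.card (MC G) + 1 with hq
  set D := (2 * i + 1) * (8 * i + 1) with hD
  obtain ⟨V, inst, Γ, h1, h2, h3, h4⟩ := iterate G hw ha (q := q) (by omega) (by omega) (q ^ c)
  refine ⟨V, inst, Γ, h1, lt_of_lt_of_le ?_ h4⟩
  have e1 : Γ.indepNum ≤ q * (2 * i + 1) ^ (q ^ c) := by
    obtain ⟨s, hs⟩ := Γ.exists_isNIndepSet_indepNum
    rw [← hs.card_eq]
    exact h3 s hs.isIndepSet
  have e2 : Γ.cliqueNum ≤ (8 * i + 1) ^ (q ^ c) := by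
    obtain ⟨s, hs⟩ := Γ.exists_isNClique_cliqueNum
    rw [← hs.card_eq]
    exact h2 s hs.isClique
  have e3 : Γ.indepNum * Γ.cliqueNum ≤ q * D ^ (q ^ c) := by
    calc Γ.indepNum * Γ.cliqueNum ≤ (q * (2 * i + 1) ^ (q ^ c)) * (8 * i + 1) ^ (q ^ c) :=
          Nat.mul_le_mul e1 e2
      _ = q * D ^ (q ^ c) := by rw [hD, mul_pow, mul_assoc]
  have hD0 : 0 < D := by positivity
  calc (Γ.indepNum * Γ.cliqueNum) ^ c ≤ (q * D ^ (q ^ c)) ^ c := Nat.pow_le_pow_left e3 c
    _ = q ^ c * (D ^ c) ^ (q ^ c) := by rw [mul_pow, ← pow_mul, ← pow_mul, mul_comm (q ^ c) c]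
    _ < 2 ^ (q ^ c) * (D ^ c) ^ (q ^ c) :=
        Nat.mul_lt_mul_of_pos_right Nat.lt_two_pow_self (by positivity)
    _ = (2 * D ^ c) ^ (q ^ c) := (mul_pow 2 (D ^ c) (q ^ c)).symm
    _ ≤ (2 ^ i) ^ (q ^ c) := Nat.pow_le_pow_left hlarge _
    _ = Fintype.card (Fin (2 ^ i)) ^ (q ^ c) := by rw [Fintype.card_fin]
    _ ≤ Fintype.card (Fin (2 ^ i)) ^ (q ^ c) * q := Nat.le_mul_of_pos_right _ (by omega)

end Pool.Agent.Results.MP_703660_co.NoPolynomialBound
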